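import Mathlib
import Pool.Agent.Helper51.RP.Goals2
import Pool.Agent.Helper30.RS.LEM

set_option autoImplicit false

/-!
# Packet RP-LEM: counting the P-part of A/pA, for all primes p

Port of `Pool.Agent.Helper30.RS.LEM` (the case p = 2).
-/

open Polynomial Module

namespace Pool.Agent.Helper19.RP

open Pool.Agent.Helper30.RS

section arith

variable (p : ℕ) [Fact p.Prime]

lemma cast_ne (m : ℕ) (hmp : m.Coprime p) : (m : ZMod p) ≠ 0 := by
  intro h
  rw [ZMod.natCast_eq_zero_iff] at h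
  have h1 : p ∣ 1 := by
    have := Nat.dvd_gcd h (dvd_refl p)
    rwa [Nat.Coprime.gcd_eq_one hmp] at this
  exact (Fact.out : p.Prime).one_lt.ne' (Nat.dvd_one.1 h1)

lemma sep (m : ℕ) (hmp : m.Coprime p) : (X ^ m - 1 : (ZMod p)[X]).Separable := by
  rw [X_pow_sub_one_separable_iff]
  exact cast_ne p m hmp

lemma ar_p (m : ℕ) (hm : 0 < m) (hmp : m.Coprime p) (P : (ZMod p)[X])
    (cop : ∀ e : ℕ, 0 < e → e < m → e ∣ m → IsCoprime P (X ^ e - 1))
    (dvdP : P ∣ X ^ m - 1) {r : ℕ} (M : Matrix (Fin r) (Fin r) ℤ) (hM : M ^ m = 1) :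
    ∃ (n : ℕ) (g : ℤ[X]) (P' : (ZMod p)[X]), M.charpoly = cyclotomic m ℤ ^ n * g ∧
      cyclotomic m (ZMod p) = P * P' ∧ IsCoprime P P' ∧
      IsCoprime P (g.map (Int.castRingHom (ZMod p))) := by
  have hc0 : M.charpoly ≠ 0 := (Matrix.charpoly_monic M).ne_zero
  obtain ⟨n, g, hng, hc⟩ := WfDvdMonoid.max_power_factor hc0 (cyclotomic.irreducible hm)
  have hdvd : M.charpoly ∣ (X ^ m - 1 : ℤ[X]) ^ Fintype.card (Fin r) := by
    apply charpoly_dvd_pow
    simp [hM]
  set Q : ℤ[X] := ∏ e ∈ m.properDivisors, cyclotomic e ℤ with hQ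
  rw [X_pow_eq m hm, ← hQ, mul_pow] at hdvd
  have hrel : IsRelPrime g (cyclotomic m ℤ) :=
    ((cyclotomic.irreducible hm).isRelPrime_iff_not_dvd.2 hng).symm
  have hg : g ∣ Q ^ Fintype.card (Fin r) := by
    refine (hrel.pow_right (n := Fintype.card (Fin r))).dvd_of_dvd_mul_left ?_
    refine (Dvd.intro_left _ hc.symm).trans hdvd
  -- modulo p
  have hQ2 : IsCoprime P (Q.map (Int.castRingHom (ZMod p))) := by
    rw [hQ, Polynomial.map_prod]
    refine IsCoprime.prod_right fun e he => ?_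
    rw [Nat.mem_properDivisors] at he
    have he0 : 0 < e := Nat.pos_of_dvd_of_pos he.1 hm
    refine IsCoprime.of_isCoprime_of_dvd_right (cop e he0 he.2 he.1) ?_
    rw [map_cyclotomic]
    exact cyclotomic.dvd_X_pow_sub_one e (ZMod p)
  have hg2 : IsCoprime P (g.map (Int.castRingHom (ZMod p))) := by
    refine IsCoprime.of_isCoprime_of_dvd_right (hQ2.pow_right (n := Fintype.card (Fin r))) ?_
    rw [← Polynomial.map_pow]
    exact Polynomial.map_dvd _ hg
  have hX2 : (X ^ m - 1 : (ZMod p)[X]) =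
      cyclotomic m (ZMod p) * Q.map (Int.castRingHom (ZMod p)) := by
    have := congrArg (Polynomial.map (Int.castRingHom (ZMod p))) (X_pow_eq m hm)
    rw [← hQ, Polynomial.map_mul, map_cyclotomic] at this
    rw [← this]
    simp
  have hP1 : P ∣ cyclotomic m (ZMod p) := by
    rw [hX2] at dvdP
    exact hQ2.dvd_of_dvd_mul_right dvdP
  obtain ⟨P', hP'⟩ := hP1
  refine ⟨n, g, P', hc, hP', ?_, hg2⟩
  have hsep := sep p m hmp
  rw [hX2, hP', mul_assoc] at hsep
  exact hsep.isCoprime.of_mul_right_left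

end arith

section final

open TensorProduct Pool.Agent.Helper51.SigLeo

variable {A : Type} [AddCommGroup A]

lemma it_add (δ : A →+ A) (j : ℕ) (u v : A) : δ^[j] (u + v) = δ^[j] u + δ^[j] v := by
  induction j with
  | zero => rfl
  | succ j ih =>
    rw [Function.iterate_succ_apply', ih, map_add, Function.iterate_succ_apply',
      Function.iterate_succ_apply']

lemma it_sub (δ : A →+ A) (j : ℕ) (u v : A) : δ^[j] (u - v) = δ^[j] u - δ^[j] v := by
  induction j with
  | zero => rfl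
  | succ j ih =>
    rw [Function.iterate_succ_apply', ih, map_sub, Function.iterate_succ_apply',
      Function.iterate_succ_apply']

lemma it_nsmul (δ : A →+ A) (j n : ℕ) (u : A) : δ^[j] (n • u) = n • δ^[j] u := by
  induction j with
  | zero => rfl
  | succ j ih =>
    rw [Function.iterate_succ_apply', ih, map_nsmul, Function.iterate_succ_apply']

lemma tors_p (p : ℕ) [hp : Fact p.Prime] (δ : A →+ A) (i : ℕ)
    (htors : ∀ (x : A) (n : ℕ), p ^ n • x = 0 → δ x = i • x)
    (P : (ZMod p)[X]) (hPi : P.eval (i : ZMod p) ≠ 0) (z y τ : A) (hz : z = p • y + τ)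
    (hτ : τ ∈ Submodule.torsion ℤ A)
    (hb : ∃ b, ∑ j ∈ P.support, (P.coeff j).val • δ^[j] z = p • b) :
    ∃ b, z = p • b := by
  have hp1 : 1 < p := hp.out.one_lt
  obtain ⟨a, ha⟩ := (Submodule.mem_torsion_iff _).1 hτ
  have ha0 : (a : ℤ) ≠ 0 := nonZeroDivisors.ne_zero a.2
  have ha' : (a : ℤ).natAbs • τ = 0 := by
    rw [← natCast_zsmul, Int.natCast_natAbs]
    rcases abs_choice (a : ℤ) with h | h <;> rw [h]
    · exact ha
    · rw [neg_smul, neg_eq_zero]; exact ha
  obtain ⟨e, k, hk, hek⟩ := Nat.exists_eq_pow_mul_and_not_dvd (Int.natAbs_ne_zero.2 ha0) p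
    hp1.ne'
  rw [hek] at ha'
  have hkp : Nat.Coprime k p := (Nat.coprime_comm.1 ((Nat.Prime.coprime_iff_not_dvd hp.out).2 hk))
  obtain ⟨k', -, hk'⟩ := Nat.exists_mul_mod_eq_one_of_coprime hkp hp1
  have hkk : k * k' = p * (k * k' / p) + 1 := by
    conv_lhs => rw [← Nat.div_add_mod (k * k') p, hk']
  set l := k * k' / p with hl
  set σ := (k * k') • τ with hσ
  have h2 : p ^ e • σ = 0 := by
    rw [hσ, smul_smul, ← mul_assoc, mul_comm (p ^ e * k) k', mul_smul, ha', smul_zero]
  have hσ2 : τ = σ - p • (l • τ) := by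
    rw [hσ, hkk, add_smul, one_smul, mul_smul]
    abel
  have hfix : δ σ = i • σ := htors _ _ h2
  have hz2 : z = p • (y - l • τ) + σ := by
    rw [hz, smul_sub]
    nth_rewrite 1 [hσ2]
    abel
  have hfix' : ∀ j, δ^[j] σ = i ^ j • σ := by
    intro j
    induction j with
    | zero => simp
    | succ j ih => rw [Function.iterate_succ_apply', ih, map_nsmul, hfix, smul_smul, pow_succ]
  obtain ⟨b, hb⟩ := hb
  set N : ℕ := ∑ j ∈ P.support, (P.coeff j).val * i ^ j with hN
  have hNp : (N : ZMod p) = P.eval (i : ZMod p) := by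
    rw [hN, eval_eq_sum, Polynomial.sum, Nat.cast_sum]
    refine Finset.sum_congr rfl fun j _ => ?_
    rw [Nat.cast_mul, ZMod.natCast_zmod_val, Nat.cast_pow]
  have hNc : Nat.Coprime N p := by
    refine Nat.coprime_comm.1 ((Nat.Prime.coprime_iff_not_dvd hp.out).2 fun h => ?_)
    rw [← ZMod.natCast_eq_zero_iff, hNp] at h
    exact hPi h
  obtain ⟨N', -, hN'⟩ := Nat.exists_mul_mod_eq_one_of_coprime hNc hp1
  have hNN : N * N' = p * (N * N' / p) + 1 := by
    conv_lhs => rw [← Nat.div_add_mod (N * N') p, hN']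
  set q := N * N' / p with hq
  have hsum : ∑ j ∈ P.support, (P.coeff j).val • δ^[j] z =
      p • (∑ j ∈ P.support, (P.coeff j).val • δ^[j] (y - l • τ)) + N • σ := by
    rw [Finset.smul_sum, hN, Finset.sum_smul, ← Finset.sum_add_distrib]
    refine Finset.sum_congr rfl fun j _ => ?_
    rw [hz2, it_add, it_nsmul, hfix', smul_add, smul_smul, smul_smul, smul_smul,
      mul_comm (P.coeff j).val p, mul_smul p]
  rw [hb] at hsum
  have hNσ : N • σ = p • (b - ∑ j ∈ P.support, (P.coeff j).val • δ^[j] (y - l • τ)) := by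
    rw [smul_sub, hsum]
    abel
  have hσ3 : σ = p • (N' • (b - ∑ j ∈ P.support, (P.coeff j).val • δ^[j] (y - l • τ)) - q • σ) := by
    have h3 : (N * N') • σ =
        p • (N' • (b - ∑ j ∈ P.support, (P.coeff j).val • δ^[j] (y - l • τ))) := by
      rw [mul_comm, mul_smul, hNσ, smul_comm]
    rw [hNN, add_smul, one_smul, mul_smul] at h3
    rw [smul_sub, ← h3]
    abel
  refine ⟨y - l • τ + (N' • (b - ∑ j ∈ P.support, (P.coeff j).val • δ^[j] (y - l • τ)) - q • σ), ?_⟩
  rw [smul_add, ← hσ3]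
  exact hz2

end final

open TensorProduct Pool.Agent.Helper51.SigLeo in
theorem s_lem : Pool.Agent.Helper51.RP.S_LEM := by
  intro p hpp k _ _ m ζ Φ P hP A _ _ δ i hδ htors hPi ζ' hζ' F hF hF2
  have hm : 0 < m := lt_trans zero_lt_one hP.one_lt
  let b := Module.finBasis ℤ (A ⧸ Submodule.torsion ℤ A)
  set r := finrank ℤ (A ⧸ Submodule.torsion ℤ A) with hr
  set M := LinearMap.toMatrix b b (dq δ) with hMdef
  have hdq : (dq δ) ^ m = 1 := by
    apply LinearMap.ext
    intro x
    obtain ⟨y, rfl⟩ := Submodule.mkQ_surjective _ x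
    rw [dq_pow, hδ]; rfl
  have hM : M ^ m = 1 := by
    have := map_pow (LinearMap.toMatrixAlgEquiv b) (dq δ) m
    rw [hdq, map_one] at this
    exact this.symm
  obtain ⟨n, g, P', hc, hP', hcop, hg⟩ := ar_p p m hm hP.copm P hP.cop hP.dvdP M hM
  have hn := mu_ge m hm δ hδ ζ' hζ' b n g hc
  set T : Module.End (ZMod p) (Fin r → ZMod p) :=
    Matrix.toLin' (M.map (Int.castRingHom (ZMod p))) with hTdef
  have hTc : T.charpoly = (P * P') ^ n * g.map (Int.castRingHom (ZMod p)) := by
    rw [hTdef, Matrix.charpoly_toLin', Matrix.charpoly_map, hc, Polynomial.map_mul,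
      Polynomial.map_pow, map_cyclotomic, hP']
  obtain ⟨Θ, hΘ⟩ := hP.dvdP
  have hsep : (X ^ m - 1 : (ZMod p)[X]).Separable := sep p m hP.copm
  have hcopΘ : IsCoprime P Θ := by
    rw [hΘ] at hsep
    exact hsep.isCoprime
  have hTm : aeval T (P * Θ) = 0 := by
    rw [← hΘ, map_sub, map_pow, aeval_X, map_one, sub_eq_zero, hTdef, ← Matrix.toLin'_pow]
    have : (M.map (Int.castRingHom (ZMod p))) ^ m = 1 := by
      have := map_pow ((Int.castRingHom (ZMod p)).mapMatrix) M m
      rw [hM, map_one] at this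
      exact this.symm
    rw [this, Matrix.toLin'_one]; rfl
  have hdim := kerdim T P Θ P' _ n hTm hcopΘ hTc hg hcop hP.irr.ne_zero
  -- the map to the reduction
  let φ : A →+ (Fin r → ZMod p) :=
    { toFun := fun x i => ((b.repr ((Submodule.torsion ℤ A).mkQ x) i : ℤ) : ZMod p)
      map_zero' := by
        funext i
        simp
      map_add' := fun x y => by
        funext i
        simp }
  have hφ : ∀ x i, φ x i = ((b.repr ((Submodule.torsion ℤ A).mkQ x) i : ℤ) : ZMod p) :=
    fun x i => rfl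
  have hφδ : ∀ x, φ (δ x) = T (φ x) := by
    intro x
    funext i
    rw [hφ, ← dq_mk, hTdef, Matrix.toLin'_apply, Matrix.mulVec, dotProduct]
    have h1 := congrFun (LinearMap.toMatrix_mulVec_repr b b (dq δ)
      ((Submodule.torsion ℤ A).mkQ x)) i
    rw [← h1, Matrix.mulVec, dotProduct, Int.cast_sum]
    refine Finset.sum_congr rfl fun j _ => ?_
    rw [Int.cast_mul, hφ]; rfl
  have hφδj : ∀ (j : ℕ) x, φ (δ^[j] x) = (T ^ j) (φ x) := by
    intro j x
    induction j with
    | zero => rfl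
    | succ j ih =>
      rw [Function.iterate_succ_apply', hφδ, ih, pow_succ', Module.End.mul_apply]
  have hφ2 : ∀ x : A, φ (p • x) = 0 := by
    intro x
    funext i
    rw [map_nsmul, Pi.smul_apply, Pi.zero_apply, nsmul_eq_mul, CharP.cast_eq_zero, zero_mul]
  have hker : ∀ x ∈ F, φ x ∈ LinearMap.ker (aeval T P) := by
    intro x hx
    obtain ⟨y, hy⟩ := hF x hx
    rw [LinearMap.mem_ker, aeval_eq_sum_range' (n := P.natDegree + 1) (Nat.lt_succ_self _)]
    have h1 : φ (∑ j ∈ P.support, (P.coeff j).val • δ^[j] x) = 0 := by rw [hy, hφ2]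
    rw [map_sum] at h1
    rw [LinearMap.sum_apply, ← h1]
    symm
    refine Finset.sum_subset_zero_on_sdiff ?_ ?_ ?_
    · intro j hj
      exact Finset.mem_range.2 (Nat.lt_succ_of_le (le_natDegree_of_mem_supp j hj))
    · intro j hj
      have : P.coeff j = 0 := notMem_support_iff.1 (Finset.mem_sdiff.1 hj).2
      rw [this, zero_smul, LinearMap.zero_apply]
    · intro j hj
      rw [map_nsmul, hφδj, LinearMap.smul_apply]
      rw [← Nat.cast_smul_eq_nsmul (ZMod p), ZMod.natCast_zmod_val]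
  have hinj : ∀ x ∈ F, ∀ y ∈ F, φ x = φ y → x = y := by
    intro x hx y hy hxy
    by_contra hne
    refine hF2 x hx y hy hne ?_
    have hz0 : φ (x - y) = 0 := by rw [map_sub, hxy, sub_self]
    have hex : ∃ u τ, x - y = p • u + τ ∧ τ ∈ Submodule.torsion ℤ A := by
      have h1 : ∀ i, ∃ c : ℤ, b.repr ((Submodule.torsion ℤ A).mkQ (x - y)) i = p * c := by
        intro i
        have := congrFun hz0 i
        rw [hφ, Pi.zero_apply, ZMod.intCast_zmod_eq_zero_iff_dvd] at this
        obtain ⟨c, hc⟩ := this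
        exact ⟨c, by exact_mod_cast hc⟩
      choose c hc using h1
      obtain ⟨u, hu⟩ := Submodule.mkQ_surjective (Submodule.torsion ℤ A) (∑ i, c i • b i)
      refine ⟨u, x - y - p • u, by abel, ?_⟩
      rw [← Submodule.ker_mkQ (Submodule.torsion ℤ A), LinearMap.mem_ker, map_sub, sub_eq_zero]
      rw [map_nsmul, hu, ← b.sum_repr ((Submodule.torsion ℤ A).mkQ (x - y)), Finset.smul_sum]
      refine Finset.sum_congr rfl fun i _ => ?_
      rw [hc, mul_smul, natCast_zsmul]
    obtain ⟨u, τ, huτ, hτ⟩ := hex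
    obtain ⟨bx, hbx⟩ := hF x hx
    obtain ⟨by', hby⟩ := hF y hy
    obtain ⟨w, hw⟩ := tors_p p δ i htors P hPi (x - y) u τ huτ hτ ⟨bx - by', by
      rw [Finset.sum_congr rfl fun j _ => by rw [it_sub δ j x y, smul_sub],
        Finset.sum_sub_distrib, hbx, hby, smul_sub]⟩
    exact ⟨w, by rw [← hw]; abel⟩
  have hcard : F.card ≤ p ^ finrank (ZMod p) (LinearMap.ker (aeval T P)) := by
    classical
    have hfin : Fintype (LinearMap.ker (aeval T P)) := Fintype.ofFinite _
    have h1 := Module.card_eq_pow_finrank (K := ZMod p) (V := LinearMap.ker (aeval T P))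
    rw [ZMod.card] at h1
    rw [← h1, ← Fintype.card_coe F]
    refine Fintype.card_le_of_injective
      (fun x : F => (⟨φ x.1, hker x.1 x.2⟩ : LinearMap.ker (aeval T P))) ?_
    intro x y hxy
    apply Subtype.ext
    exact hinj x.1 x.2 y.1 y.2 (congrArg Subtype.val hxy)
  refine hcard.trans (Nat.pow_le_pow_right (Fact.out : p.Prime).pos ?_)
  refine hdim.trans ?_
  rw [mul_comm]
  exact Nat.mul_le_mul_left _ hn

end Pool.Agent.Helper19.RP
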